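import Mathlib
import Pool.Agent.MP_820cde_gt.Defs
import Pool.Agent.MP_820cde_gt.Final

/-!
# Compact groups all of whose `G_δ`-dense subgroups are projectively `w`-compact are metrizable

The definitions `weight`, `WCompact`, `ProjectivelyWCompact` and `GDeltaDense` are in
`Pool/Agent/MP_820cde_gt/Defs.lean`.

Outline of the proof. Assume that the compact group `G` is not metrizable. By the Peter-Weyl
theorem (`PW.lean`) and the descending chain condition for closed subgroups of matrix groups
(`DCC.lean`, Hilbert basis theorem and averaging) there are a countable set `C` and an uncountable
set `S` of real matrix representations such that the common kernel `N` of `C` maps onto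
`∏ s ∈ S, s(N)` with all `s(N)` nontrivial (`Indep.lean`). For the points `z` of the Cantor space
one chooses elements `x z` of `G` with prescribed countably many coordinates and such that the
remaining coordinates depend continuously on `z`, in a sufficiently free manner
(`Select.lean`, `Refine.lean`, `Construct.lean`, `Build.lean`). The images of the `x z` generate
a subgroup `H` of the product over `S` whose compact subsets are all metrizable (a condensation
argument, `Words.lean`), which is not second countable, and whose preimage in `G` is
`G_δ`-dense (`Transfer.lean`).
-/

universe u

/-- A compact (Hausdorff, not necessarily abelian) group all of whose `G_δ`-dense subgroups are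
projectively `w`-compact is metrizable. -/
theorem Pool.Agent.Results.MP_820cde_gt.Main.result (G : Type u) [Group G] [TopologicalSpace G]
    [IsTopologicalGroup G] [CompactSpace G] [T2Space G]
    (h : ∀ D : Subgroup G, Pool.Agent.MP820cde.GDeltaDense D →
      Pool.Agent.MP820cde.ProjectivelyWCompact D) :
    TopologicalSpace.MetrizableSpace G :=
  Pool.Agent.MP820cde.metrizable_of_gDeltaDense G h
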